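import Pool.Agent.W622.ETG.Stm

set_option autoImplicit false
set_option linter.unusedSectionVars false

namespace Pool.Agent.W150.ELG

open Pool.Agent.W622.ETG Module

/-- a functional with value `1` at `x` and value `0` at `e` -/
theorem exists_sep {V : Type} [AddCommGroup V] [Module (ZMod 2) V] {e x : V} (hx0 : x ≠ 0)
    (hx : x ≠ e) : ∃ f : Dl V, f x = 1 ∧ f e = 0 := by
  have hn : x ∉ Submodule.span (ZMod 2) {e} := by
    intro h
    obtain ⟨c, hc⟩ := Submodule.mem_span_singleton.mp h
    rcases z01 c with h1 | h1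
    · rw [h1, zero_smul] at hc; exact hx0 hc.symm
    · rw [h1, one_smul] at hc; exact hx hc.symm
  obtain ⟨q, h1, h2⟩ := Submodule.exists_le_ker_of_notMem hn
  exact ⟨q, z_ne h1, h2 (Submodule.mem_span_singleton_self e)⟩

theorem t_RIG (hLU : S_LU) (hRIG1 : S_RIG1) : S_RIG := by
  intro V _ _ _ e A x hA hH hx0 hxe hx hx' hEl
  obtain ⟨q, -, hq1, hqe, hq⟩ := hRIG1 V e A ⊤ x hA hH.linked (hLU V e A hA hH) le_top
    (by obtain ⟨f, hf⟩ := exists_sep hx0 hxe; exact ⟨f, Submodule.mem_top, hf⟩)
    (fun f _ hf => hx f hf) (fun f _ hf => hx' f hf)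
  have e0 : A = res A (ann x) ⊔ Submodule.map (wd e q) (ann x) := by
    apply le_antisymm
    · intro ω hω
      have hf : ω x x = ω x e := (hA ω hω).sq x
      -- an element of `ann x` with the same word as `ω x`
      obtain ⟨g, hg, hgw⟩ : ∃ g ∈ ann x, wd e q g x = ω x := by
        rcases z01 (ω x x) with h1 | h1
        · exact ⟨ω x, mem_ann.mpr h1, wd_val_one hq1 hf⟩
        · refine ⟨ω x + q, ?_, ?_⟩
          · rw [mem_ann, LinearMap.add_apply, h1, hq1, zadd]
          · rw [wd_add_self hqe]
            exact wd_val_one hq1 hf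
      have h2 : ω + wd e q g ∈ res A (ann x) := by
        rw [mem_res_ann hA]
        refine ⟨A.add_mem hω (hq _ Submodule.mem_top), ?_⟩
        rw [LinearMap.add_apply, hgw, vadd]
      have h4 : wd e q g + wd e q g = 0 := by
        ext a b
        exact zadd _
      have h3 : ω = (ω + wd e q g) + wd e q g := by
        rw [add_assoc, h4, add_zero]
      rw [h3]
      exact Submodule.add_mem_sup h2 ⟨_, hg, rfl⟩
    · refine sup_le (res_le _ _) ?_
      rintro _ ⟨g, -, rfl⟩
      exact hq g Submodule.mem_top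
  rw [e0]
  exact El.cone _ q _ hEl (supp_res_le A (ann x)) (fun h => by
    rw [mem_ann, hq1] at h; exact one_ne_zero h) hqe

end Pool.Agent.W150.ELG
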